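import Mathlib
import Pool.Agent.Q292.RSA.Main
import Pool.Agent.Q292.RSA.Rec

/-!
# Variance of the jamming count of random sequential adsorption of `r`-mers

For every `r ≥ 2` the variance of the number `C_n` of `r`-mers in the jammed configuration on `n` sites
satisfies `Var(C_n) / n → v(r)` with an explicit `v(r)`.
-/

set_option autoImplicit false

namespace Pool.Agent.Results.MP_669328_pr.VarianceFormula

open Finset Filter Topology

/-! ### The process. The sites are `0, …, n-1`. -/

/-- The `r` consecutive sites `i, …, i+r-1`. -/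
def block (r n i : ℕ) : Finset (Fin n) := univ.filter (fun x : Fin n => i ≤ x.val ∧ x.val < i + r)

/-- The blocks (given by their left end points `0 ≤ i ≤ n - r`) which are entirely uncovered, where
`S` is the set of covered sites. -/
def free (r n : ℕ) (S : Finset (Fin n)) : Finset ℕ :=
  (range (n + 1 - r)).filter (fun i => Disjoint (block r n i) S)

/-- One placement: a block is chosen uniformly among the blocks that are entirely uncovered, and its
sites become covered. If there is no such block (`S` is jammed), nothing happens. -/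
noncomputable def place (r n : ℕ) (S : Finset (Fin n)) : PMF (Finset (Fin n)) :=
  if h : (free r n S).Nonempty then
    (PMF.uniformOfFinset (free r n S) h).map (fun i => S ∪ block r n i)
  else PMF.pure S

/-- Law of the set of covered sites after `k` placements, started from the covered set `S`. -/
noncomputable def run (r n : ℕ) : ℕ → Finset (Fin n) → PMF (Finset (Fin n))
  | 0, S => PMF.pure S
  | k + 1, S => (place r n S).bind (run r n k)

/-- Law of the jammed configuration (set of covered sites), started from the empty lattice. After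
`n` placements the configuration is jammed, see the first part of `result`. -/
noncomputable def jammed (r n : ℕ) : PMF (Finset (Fin n)) := run r n n ∅

/-- Expectation of a real function of the configuration. -/
noncomputable def expect {n : ℕ} (P : PMF (Finset (Fin n))) (f : Finset (Fin n) → ℝ) : ℝ :=
  ∑ S, (P S).toReal * f S

/-- Number of `r`-mers of a configuration: number of covered sites divided by `r`. -/
noncomputable def count (r n : ℕ) (S : Finset (Fin n)) : ℝ := (S.card : ℝ) / r

/-- `Var(C_n) = E[C_n²] - (E[C_n])²`. -/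
noncomputable def varC (r n : ℕ) : ℝ :=
  expect (jammed r n) (fun S => count r n S ^ 2) - expect (jammed r n) (count r n) ^ 2

/-! ### The formula -/

/-- `λ(t) = exp(-2 ∑_{k=1}^{r-1} (1 - t^k)/k)`. -/
noncomputable def lam (r : ℕ) (t : ℝ) : ℝ :=
  Real.exp (-2 * ∑ k ∈ Icc 1 (r - 1), (1 - t ^ k) / k)

/-- `Λ(t) = ∫_0^t λ`. -/
noncomputable def Lam (r : ℕ) (t : ℝ) : ℝ := ∫ s in (0 : ℝ)..t, lam r s

/-- The asymptotic variance of the number of `r`-mers per site. -/
noncomputable def v (r : ℕ) : ℝ :=
  Lam r 1 ^ 2 - Lam r 1 + 4 * ∫ t in (0 : ℝ)..1,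
    (t ^ (r - 1) * (∑ j ∈ range (r - 1), t ^ j) * Lam r t -
      t ^ (2 * r - 3) * (∑ j ∈ range (r - 1), ((r : ℝ) - 1 - j) * t ^ j) *
        Lam r t ^ 2 / lam r t)

/-! ### Proofs -/

theorem mem_block {r n i : ℕ} {x : Fin n} : x ∈ block r n i ↔ i ≤ x.val ∧ x.val < i + r := by
  unfold block; simp

theorem card_block {r n i : ℕ} (h : i + r ≤ n) : (block r n i).card = r := by
  have : (block r n i).map Fin.valEmbedding = Ico i (i + r) := by
    ext x
    rw [Finset.mem_map, mem_Ico]
    constructor
    · rintro ⟨y, hy, rfl⟩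
      exact mem_block.1 hy
    · intro hx
      exact ⟨⟨x, by omega⟩, mem_block.2 hx, rfl⟩
  rw [← card_map, this, Nat.card_Ico]
  omega

theorem disj_block {r n i j : ℕ} (hr : 1 ≤ r) (hi : i + r ≤ n) (hj : j + r ≤ n) :
    Disjoint (block r n j) (block r n i) ↔ (j + r ≤ i ∨ i + r ≤ j) := by
  rw [disjoint_left]
  constructor
  · intro h
    by_contra hcon
    rcases Nat.le_total i j with hij | hij
    · exact h (a := ⟨j, by omega⟩) (mem_block.2 (by simp; omega)) (mem_block.2 (by simp; omega))
    · exact h (a := ⟨i, by omega⟩) (mem_block.2 (by simp; omega)) (mem_block.2 (by simp; omega))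
  · intro h x hx hy
    have h1 := mem_block.1 hx
    have h2 := mem_block.1 hy
    omega

theorem mem_free {r n : ℕ} {S : Finset (Fin n)} {i : ℕ} :
    i ∈ free r n S ↔ i < n + 1 - r ∧ Disjoint (block r n i) S := by
  unfold free; rw [mem_filter, mem_range]

theorem free_place {r n : ℕ} (hr : 1 ≤ r) {S : Finset (Fin n)} {i : ℕ} (hi : i ∈ free r n S) :
    free r n (S ∪ block r n i) = Q292.RSA.rest r (free r n S) i := by
  have hi' := mem_free.1 hi
  ext j
  rw [mem_free, Q292.RSA.mem_rest, mem_free, disjoint_union_right]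
  constructor
  · rintro ⟨h1, h2, h3⟩
    rw [disj_block hr (by omega) (by omega)] at h3
    exact ⟨⟨by omega, h1, h2⟩, h3⟩
  · rintro ⟨⟨_, h1, h2⟩, h3⟩
    exact ⟨h1, h2, (disj_block hr (by omega) (by omega)).2 h3⟩

theorem count_place {r n : ℕ} (hr : 1 ≤ r) {S : Finset (Fin n)} {i : ℕ} (hi : i ∈ free r n S) :
    count r n (S ∪ block r n i) = count r n S + 1 := by
  have hi' := mem_free.1 hi
  unfold count
  rw [card_union_of_disjoint hi'.2.symm, card_block (by omega)]
  have : (r : ℝ) ≠ 0 := by
    have : 0 < r := by omega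
    exact_mod_cast this.ne'
  push_cast
  field_simp

theorem expect_pure {n : ℕ} (S : Finset (Fin n)) (f : Finset (Fin n) → ℝ) :
    expect (PMF.pure S) f = f S := by
  unfold expect
  rw [sum_eq_single S]
  · simp
  · intro T _ hT
    rw [PMF.pure_apply, if_neg hT]
    simp
  · intro h
    exact absurd (mem_univ S) h

theorem expect_uniform {n : ℕ} (s : Finset ℕ) (hs : s.Nonempty) (g : ℕ → PMF (Finset (Fin n)))
    (f : Finset (Fin n) → ℝ) :
    expect ((PMF.uniformOfFinset s hs).bind g) f = (∑ i ∈ s, expect (g i) f) / s.card := by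
  unfold expect
  have h1 : ∀ S, ((PMF.uniformOfFinset s hs).bind g S).toReal =
      (∑ i ∈ s, (g i S).toReal) / s.card := by
    intro S
    rw [PMF.bind_apply, tsum_eq_sum (s := s), ENNReal.toReal_sum]
    · rw [sum_div]
      apply sum_congr rfl
      intro i hi
      rw [PMF.uniformOfFinset_apply_of_mem hs hi, ENNReal.toReal_mul, ENNReal.toReal_inv,
        ENNReal.toReal_natCast]
      ring
    · intro i _
      exact ENNReal.mul_ne_top (PMF.apply_ne_top _ _) (PMF.apply_ne_top _ _)
    · intro i hi
      rw [PMF.uniformOfFinset_apply_of_notMem hs hi, zero_mul]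
  simp_rw [h1]
  rw [sum_comm, sum_div]
  apply sum_congr rfl
  intro S _
  rw [← sum_mul]
  ring

theorem expect_run_succ {r n k : ℕ} {S : Finset (Fin n)} (h : (free r n S).Nonempty)
    (f : Finset (Fin n) → ℝ) :
    expect (run r n (k + 1) S) f =
      (∑ i ∈ free r n S, expect (run r n k (S ∪ block r n i)) f) / (free r n S).card := by
  rw [run, place, dif_pos h, PMF.bind_map]
  exact expect_uniform _ h _ f

theorem run_succ_empty {r n k : ℕ} {S : Finset (Fin n)} (h : ¬ (free r n S).Nonempty) :
    run r n (k + 1) S = run r n k S := by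
  rw [run, place, dif_neg h, PMF.pure_bind]

theorem expect_run {r n : ℕ} (hr : 1 ≤ r) : ∀ (k : ℕ) (S : Finset (Fin n)),
    (free r n S).card ≤ k →
    expect (run r n k S) (count r n) = count r n S + Q292.RSA.mom1 r (free r n S) ∧
    expect (run r n k S) (fun T => count r n T ^ 2) = count r n S ^ 2 +
      2 * count r n S * Q292.RSA.mom1 r (free r n S) + Q292.RSA.mom2 r (free r n S) := by
  intro k
  induction k with
  | zero =>
    intro S hS
    have h0 : free r n S = ∅ := card_eq_zero.1 (by omega)
    rw [h0, Q292.RSA.mom1_empty, Q292.RSA.mom2_empty, run, expect_pure, expect_pure]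
    constructor <;> ring
  | succ k ih =>
    intro S hS
    by_cases h : (free r n S).Nonempty
    · have hc : ((free r n S).card : ℝ) ≠ 0 := by
        have := card_pos.2 h
        exact_mod_cast this.ne'
      have ih' : ∀ i ∈ free r n S, _ := fun i hi => ih (S ∪ block r n i) (by
        rw [free_place hr hi]
        have := Q292.RSA.card_rest (r := r) hi
        omega)
      constructor
      · rw [expect_run_succ h, div_eq_iff hc, add_mul, mul_comm (Q292.RSA.mom1 r (free r n S)),
          Q292.RSA.mom1_rec, mul_comm, ← nsmul_eq_mul, ← sum_const, ← sum_add_distrib]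
        apply sum_congr rfl
        intro i hi
        rw [(ih' i hi).1, free_place hr hi, count_place hr hi]
        ring
      · rw [expect_run_succ h, div_eq_iff hc]
        have e : (count r n S ^ 2 + 2 * count r n S * Q292.RSA.mom1 r (free r n S) +
            Q292.RSA.mom2 r (free r n S)) * (free r n S).card =
            (free r n S).card • (count r n S ^ 2) + 2 * count r n S *
              ((free r n S).card * Q292.RSA.mom1 r (free r n S)) +
              (free r n S).card * Q292.RSA.mom2 r (free r n S) := by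
          rw [nsmul_eq_mul]; ring
        rw [e, Q292.RSA.mom1_rec, Q292.RSA.mom2_rec, mul_sum, ← sum_const, ← sum_add_distrib,
          ← sum_add_distrib]
        apply sum_congr rfl
        intro i hi
        rw [(ih' i hi).2, free_place hr hi, count_place hr hi]
        ring
    · rw [run_succ_empty h]
      have h0 : free r n S = ∅ := not_nonempty_iff_eq_empty.1 h
      exact ih S (by rw [h0]; simp)

theorem jam_run {r n : ℕ} (hr : 1 ≤ r) : ∀ (k : ℕ) (S : Finset (Fin n)),
    (free r n S).card ≤ k → ∀ T ∈ (run r n k S).support, free r n T = ∅ := by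
  intro k
  induction k with
  | zero =>
    intro S hS T hT
    rw [run, PMF.support_pure, Set.mem_singleton_iff] at hT
    rw [hT]
    exact card_eq_zero.1 (by omega)
  | succ k ih =>
    intro S hS T hT
    by_cases h : (free r n S).Nonempty
    · rw [run, place, dif_pos h, PMF.bind_map, PMF.mem_support_bind_iff] at hT
      obtain ⟨i, hi, hT⟩ := hT
      rw [PMF.mem_support_uniformOfFinset_iff] at hi
      refine ih (S ∪ block r n i) ?_ T hT
      rw [free_place hr hi]
      have := Q292.RSA.card_rest (r := r) hi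
      omega
    · rw [run_succ_empty h] at hT
      have h0 : free r n S = ∅ := not_nonempty_iff_eq_empty.1 h
      exact ih S (by rw [h0]; simp) T hT

theorem free_empty (r n : ℕ) : free r n ∅ = range (n + 1 - r) := by
  unfold free
  apply filter_true_of_mem
  intro i _
  exact disjoint_empty_right _

theorem varC_eq {r : ℕ} (hr : 1 ≤ r) (n : ℕ) :
    varC r n = Q292.RSA.qq r n - Q292.RSA.mm r n ^ 2 := by
  have h := expect_run (n := n) hr n ∅ (by rw [free_empty, card_range]; omega)
  unfold varC jammed
  rw [h.1, h.2, free_empty]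
  have h0 : count r n ∅ = 0 := by unfold count; simp
  rw [h0]
  unfold Q292.RSA.qq Q292.RSA.mm
  ring

/-! The formula -/

theorem lam_eq (p : ℕ) (t : ℝ) :
    lam (p + 2) t = Real.exp (-(2 * Q292.RSA.S p 1)) * Real.exp (2 * Q292.RSA.S p t) := by
  unfold lam Q292.RSA.S
  rw [← Real.exp_add]
  congr 1
  have e : Icc 1 (p + 2 - 1) = Ico 1 (p + 2) := by
    ext x; rw [mem_Icc, mem_Ico]; omega
  rw [e, sum_Ico_eq_sum_range, mul_sum, mul_sum, mul_sum, ← sum_neg_distrib, ← sum_add_distrib]
  apply sum_congr
  · congr 1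
  · intro k _
    push_cast
    rw [one_pow, add_comm 1 k, add_comm (1 : ℝ) k]
    ring

theorem Lam_eq (p : ℕ) (t : ℝ) :
    Lam (p + 2) t = Real.exp (-(2 * Q292.RSA.S p 1)) * Q292.RSA.J p t := by
  unfold Lam Q292.RSA.J
  rw [← intervalIntegral.integral_const_mul]
  congr 1
  funext s
  exact lam_eq p s

theorem v_eq (p : ℕ) : v (p + 2) = Q292.RSA.cc p ^ 2 - Q292.RSA.cc p +
    Real.exp (-(2 * Q292.RSA.S p 1)) * Q292.RSA.I p 1 := by
  unfold v
  have h1 : Lam (p + 2) 1 = Q292.RSA.cc p := Lam_eq p 1
  rw [h1]
  congr 1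
  unfold Q292.RSA.I
  rw [← intervalIntegral.integral_const_mul, ← intervalIntegral.integral_const_mul]
  congr 1
  funext t
  rw [lam_eq, Lam_eq]
  unfold Q292.RSA.R Q292.RSA.G Q292.RSA.H
  have e1 : p + 2 - 1 = p + 1 := by omega
  have e2 : 2 * (p + 2) - 3 = 2 * p + 1 := by omega
  have e3 : ∑ j ∈ range (p + 1), (((p + 2 : ℕ) : ℝ) - 1 - j) * t ^ j =
      ∑ j ∈ range (p + 1), ((p : ℝ) + 1 - j) * t ^ j := by
    apply sum_congr rfl
    intro j _
    push_cast
    ring
  rw [e1, e2, e3, Real.exp_neg (2 * Q292.RSA.S p t)]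
  have h2 := (Real.exp_pos (2 * Q292.RSA.S p t)).ne'
  have h3 := (Real.exp_pos (-(2 * Q292.RSA.S p 1))).ne'
  field_simp

/-- **Asymptotic variance of random sequential adsorption of `r`-mers.** For every `r ≥ 2`: the law
`jammed r n` is carried by jammed configurations, and `Var(C_n) / n → v(r)`. -/
theorem result (r : ℕ) (hr : 2 ≤ r) :
    (∀ n : ℕ, ∀ S ∈ (jammed r n).support, free r n S = ∅) ∧
      Tendsto (fun n : ℕ => varC r n / n) atTop (𝓝 (v r)) := by
  refine ⟨fun n S hS => jam_run (by omega) n ∅ (by rw [free_empty, card_range]; omega) S hS, ?_⟩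
  obtain ⟨p, rfl⟩ : ∃ p, r = p + 2 := ⟨r - 2, by omega⟩
  have h := Q292.RSA.main_lim (Q292.RSA.mom_interval hr)
  rw [← v_eq] at h
  have h1 : Tendsto (fun n : ℕ => ((n : ℝ) + (p + 2 : ℕ)) / n) atTop (𝓝 1) := by
    have h2 : Tendsto (fun n : ℕ => 1 + ((p + 2 : ℕ) : ℝ) * (1 / (n : ℝ))) atTop
        (𝓝 (1 + ((p + 2 : ℕ) : ℝ) * 0)) :=
      (tendsto_one_div_atTop_nhds_zero_nat.const_mul _).const_add _
    rw [mul_zero, add_zero] at h2
    refine h2.congr' ?_
    filter_upwards [eventually_gt_atTop 0] with n hn
    have : (n : ℝ) ≠ 0 := by exact_mod_cast hn.ne'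
    field_simp
  have h3 := h.mul h1
  rw [mul_one] at h3
  refine h3.congr (fun n => ?_)
  rw [varC_eq (by omega) n]
  have : (n : ℝ) + (p + 2 : ℕ) ≠ 0 := by positivity
  field_simp

end Pool.Agent.Results.MP_669328_pr.VarianceFormula
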